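import Pool.Graph.R_seed8.Helper383.NI.Defs
import Pool.Graph.R_seed8.Helper383.NI.U0
import Pool.Agent.KS6_98.NIu.Infl

/-!
# MP_8b4a1b_an, Q1: norm inflation for the planar Euler equations, with growth of all the norms

The plane `ℝ²` is `ℂ` (with its Lebesgue measure and its real inner product); a vector field
`u = (u₁, u₂)` is the function `u = u₁ + i u₂ : ℂ → ℂ`.

For every compact interval `[s₀, s₁]` in `(0,1)`, every `s` in it and every `ε > 0` there are one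
datum and one time smaller than `ε` with norm inflation in `H^s` (from less than `ε` to more than
`1/ε`), such that for all `r` in `[s₀, s₁]` simultaneously the `H^r` norm of the datum is multiplied
by more than `1/ε`, even if the norm at the end is replaced by the homogeneous norm.
-/

set_option autoImplicit false

open Complex MeasureTheory Set Filter Topology

namespace Pool.Agent.Results.MP_8b4a1b_an.AllNormsGrow

/-- The square of the norm of `f = (f₁, f₂)` in `H^s(ℝ²)`: the integral of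
`(1 + |ξ|²)^s (|F f₁(ξ)|² + |F f₂(ξ)|²)`, where `F` is the Fourier transform (of functions which
are integrable in all uses below). -/
noncomputable def sobolevSq (s : ℝ) (f : ℂ → ℂ) : ENNReal :=
  ∫⁻ ξ : ℂ, ENNReal.ofReal ((1 + ‖ξ‖ ^ 2) ^ s) *
    (‖FourierTransform.fourier (fun z : ℂ => ((f z).re : ℂ)) ξ‖ₑ ^ 2
      + ‖FourierTransform.fourier (fun z : ℂ => ((f z).im : ℂ)) ξ‖ₑ ^ 2)

/-- The square of the homogeneous Sobolev norm of `f = (f₁, f₂)`: the integral of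
`|ξ|^(2s) (|F f₁(ξ)|² + |F f₂(ξ)|²)`; for `s ≥ 0` it is at most `sobolevSq s f`. -/
noncomputable def homSobolevSq (s : ℝ) (f : ℂ → ℂ) : ENNReal :=
  ∫⁻ ξ : ℂ, ENNReal.ofReal (‖ξ‖ ^ (2 * s)) *
    (‖FourierTransform.fourier (fun z : ℂ => ((f z).re : ℂ)) ξ‖ₑ ^ 2
      + ‖FourierTransform.fourier (fun z : ℂ => ((f z).im : ℂ)) ξ‖ₑ ^ 2)

/-- The divergence `∂₁ u₁ + ∂₂ u₂`. -/
noncomputable def divergence (u : ℂ → ℂ) (z : ℂ) : ℝ :=
  (fderiv ℝ u z 1).re + (fderiv ℝ u z I).im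

/-- `u` is a smooth solution, with pressure `p`, of the incompressible Euler equations
`∂_t u + (u·∇)u + ∇p = 0`, `∇·u = 0` on `[0,T] × ℝ²`: at every time `u(t)` is in `H^∞`, `u` and
`∇u` are bounded, `u` and `∇p` are bounded in `L²` uniformly in time, and `u`, `∇u`, `∇p` are
jointly continuous. (`fderiv ℝ (u t) z (u t z)` is `(u·∇)u`.) -/
structure IsSmoothEuler (T : ℝ) (u : ℝ → ℂ → ℂ) (p : ℝ → ℂ → ℝ) : Prop where
  smooth : ∀ t ∈ Icc 0 T, ContDiff ℝ (⊤ : ℕ∞) (u t)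
  sobolev : ∀ t ∈ Icc 0 T, ∀ n : ℕ, MemLp (iteratedFDeriv ℝ n (u t)) 2
  bounded : ∃ C : ℝ, ∀ t ∈ Icc 0 T, (∀ z, ‖u t z‖ ≤ C ∧ ‖fderiv ℝ (u t) z‖ ≤ C) ∧
    ∫⁻ z : ℂ, ‖u t z‖ₑ ^ 2 ≤ ENNReal.ofReal C
  cont : ContinuousOn (fun q : ℝ × ℂ => u q.1 q.2) (Icc 0 T ×ˢ univ)
  cont_space : ContinuousOn (fun q : ℝ × ℂ => fderiv ℝ (u q.1) q.2) (Icc 0 T ×ˢ univ)
  pressure : ∀ t ∈ Icc 0 T, ContDiff ℝ 1 (p t)
  pressure_cont : ContinuousOn (fun q : ℝ × ℂ => gradient (p q.1) q.2) (Icc 0 T ×ˢ univ)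
  pressure_bound : ∃ C : ℝ, ∀ t ∈ Icc 0 T,
    ∫⁻ z : ℂ, ‖gradient (p t) z‖ₑ ^ 2 ≤ ENNReal.ofReal C
  divfree : ∀ t ∈ Icc 0 T, ∀ z, divergence (u t) z = 0
  momentum : ∀ t ∈ Icc 0 T, ∀ z, HasDerivWithinAt (fun τ => u τ z)
    (-(fderiv ℝ (u t) z (u t z)) - gradient (p t) z) (Icc 0 T) t

theorem smooth_iff (T : ℝ) (u : ℝ → ℂ → ℂ) (p : ℝ → ℂ → ℝ) :
    IsSmoothEuler T u p ↔ Pool.Agent.Helper383.NI.JU0.IsHinfEuler T u p :=
  ⟨fun h => ⟨h.smooth, h.sobolev, h.bounded, h.cont, h.cont_space, h.pressure, h.pressure_cont,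
      h.pressure_bound, h.divfree, h.momentum⟩,
    fun h => ⟨h.smooth, h.sobolev, h.bounded, h.cont, h.cont_space, h.pressure, h.pressure_cont,
      h.pressure_bound, h.divfree, h.momentum⟩⟩

/-- Norm inflation in `H^s` for every `s` in `(0,1)`, with one datum `u₀` and one time `t < ε` for
which moreover all the norms `H^r`, `r` in a given compact interval `[s₀, s₁]` in `(0,1)`, grow by a
factor larger than `1/ε`. -/
theorem result : ∀ s₀ s s₁ : ℝ, 0 < s₀ → s₀ ≤ s → s ≤ s₁ → s₁ < 1 → ∀ ε : ℝ, 0 < ε →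
    ∃ (u₀ : ℂ → ℂ) (t : ℝ), 0 < t ∧ t < ε ∧
      ContDiff ℝ (⊤ : ℕ∞) u₀ ∧ Integrable u₀ ∧ (∀ n : ℕ, MemLp (iteratedFDeriv ℝ n u₀) 2) ∧
      (∀ z, divergence u₀ z = 0) ∧
      (∀ r : ℝ, r ≤ s → sobolevSq r u₀ < ENNReal.ofReal (ε ^ 2)) ∧
      (∃ u p, IsSmoothEuler t u p ∧ u 0 = u₀) ∧
      (∀ u p, IsSmoothEuler t u p → u 0 = u₀ →
        Integrable (u t) ∧
        ENNReal.ofReal ((1 / ε) ^ 2) < homSobolevSq s (u t) ∧
        (∀ r : ℝ, s ≤ r → ENNReal.ofReal ((1 / ε) ^ 2) < sobolevSq r (u t)) ∧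
        (∀ r : ℝ, s₀ ≤ r → r ≤ s₁ →
          ENNReal.ofReal ((1 / ε) ^ 2) * sobolevSq r u₀ < homSobolevSq r (u t) ∧
          homSobolevSq r (u t) ≤ sobolevSq r (u t))) := by
  intro s₀ s s₁ h₀ h₀s hss h₁ ε hε
  obtain ⟨u₀, t, ht, htε, h1, h2, h3, h4, h5, ⟨u, p, h6, h6'⟩, h7⟩ :=
    Pool.Agent.KS6_98.NIu.norm_inflation_unif s₀ s s₁ h₀ h₀s hss h₁ ε hε
  refine ⟨u₀, t, ht, htε, h1, h2, h3, h4, fun r hr =>
    (Pool.Agent.KS6_98.NIu.hsq_mono hr u₀).trans_lt h5, ⟨u, p, (smooth_iff t u p).2 h6, h6'⟩,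
    fun u p hu hu0 => ?_⟩
  obtain ⟨g1, g2, g3⟩ := h7 u p ((smooth_iff t u p).1 hu) hu0
  refine ⟨g1, g2, fun r hr => ?_, fun r hr hr' => ⟨g3 r hr hr', ?_⟩⟩
  · have hs0 : 0 ≤ s := by linarith
    exact g2.trans_le ((Pool.Agent.Helper383.NI.JS1.hdot_le_hsq s hs0 (u t)).trans
      (Pool.Agent.KS6_98.NIu.hsq_mono hr (u t)))
  · have hr0 : 0 ≤ r := by linarith
    exact Pool.Agent.Helper383.NI.JS1.hdot_le_hsq r hr0 (u t)

end Pool.Agent.Results.MP_8b4a1b_an.AllNormsGrow
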